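import Mathlib
import Pool.Agent.H194R3.Tate.CharZero
import Pool.Agent.Y137.MV.Defs
import Pool.Agent.Helper33_dom.Field

/-!
# Weil numbers without relations between their slopes have maximal angle rank
-/

set_option autoImplicit false
set_option linter.unusedSectionVars false

namespace Pool.Agent.Helper33Ct

open NumberField Module Pool.Agent.H925R2 Pool.Agent.H485R3 Pool.Agent.H204R3.CM
  Pool.Agent.H868R3.TwoOdd Pool.Agent.H194R3.CM Pool.Agent.H194R3.Tate Pool.Agent.Helper33Dom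
open Pool.Agent.Y137.MV (MaximalAngleRank)

theorem angle_of_norel (p : ℕ) [Fact p.Prime] (a : ℕ) (ha : 0 < a) {I : Type} [Fintype I]
    {K : I → Type} [∀ i, Field (K i)] [∀ i, NumberField (K i)] [∀ i, IsCMField (K i)]
    (π : ∀ i, K i) (hweil : ∀ i, ∀ φ : K i →+* ℂ, ‖φ (π i)‖ ^ 2 = (((p : ℚ) ^ a : ℚ) : ℝ))
    (hnd : Pool.Agent.H194R3.Tate.NoRel p (fun _ => (p : ℚ) ^ a) π) :
    MaximalAngleRank (p ^ a) π := by
  classical
  intro r n hrel
  obtain ⟨L, hL1, hL2, j, h⟩ := Pool.Agent.H204R3.CM.exists_galois K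
  let e : L →ₐ[ℚ] PadicAlgCl p := IsAlgClosed.lift
  have hp : p.Prime := Fact.out
  have hp1 : (1 : ℝ) < p := by exact_mod_cast hp.one_lt
  have hlogp : 0 < Real.log p := Real.log_pos hp1
  have hq : (0 : ℚ) < (p : ℚ) ^ a := pow_pos (by exact_mod_cast hp.pos) _
  let X := Σ i, (K i →+* L)
  let J : X → Σ i, (K i →+* ℂ) := fun x => ⟨x.1, j.comp x.2⟩
  have hJ : Function.Bijective J := by
    constructor
    · rintro ⟨i, φ⟩ ⟨i', φ'⟩ hh
      have h1 : i = i' := congrArg Sigma.fst hh
      subst h1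
      have h2 : j.comp φ = j.comp φ' := eq_of_heq (Sigma.mk.inj_iff.1 hh).2
      have h3 : φ = φ' := RingHom.ext fun x => j.injective (RingHom.congr_fun h2 x)
      rw [h3]
    · rintro ⟨i, ψ⟩
      obtain ⟨φ, hφ⟩ := h i ψ
      exact ⟨⟨i, φ⟩, by simp only [J]; rw [hφ]⟩
  have hval0 : ∀ x : X, x.2 (π x.1) ≠ 0 := fun x => (map_ne_zero _).2 (weil_ne hq (hweil x.1))
  -- the relation in `L`
  have hrelL : ∏ x : X, (x.2 (π x.1)) ^ n (J x) = ((p : L) ^ a) ^ r := by
    apply j.injective
    rw [map_prod, map_zpow₀, map_pow, map_natCast]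
    have h1 : ∏ x : X, j ((x.2 (π x.1)) ^ n (J x)) = ∏ y, (y.2 (π y.1)) ^ n y := by
      refine Fintype.prod_bijective J hJ _ _ fun x => ?_
      rw [map_zpow₀]
      rfl
    rw [h1, hrel]
    push_cast
    rfl
  -- the weights
  have hN : ∑ x : X, (n (J x) : ℝ) = 2 * r := by
    have h1 := congrArg (fun z => Real.log ‖j z‖) hrelL
    simp only [map_prod, map_zpow₀, map_pow, map_natCast, norm_prod, norm_zpow, norm_pow,
      Complex.norm_natCast] at h1
    rw [Real.log_prod (fun x _ => zpow_ne_zero _ (norm_ne_zero_iff.2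
      ((map_ne_zero j).2 (hval0 x))))] at h1
    simp only [Real.log_zpow, Real.log_pow] at h1
    have h2 : ∀ x : X, Real.log ‖j (x.2 (π x.1))‖ = a * Real.log p / 2 := by
      intro x
      have h3 := congrArg Real.log (hweil x.1 (j.comp x.2))
      rw [Real.log_pow] at h3
      push_cast at h3
      rw [Real.log_pow] at h3
      have h4 : (j.comp x.2) (π x.1) = j (x.2 (π x.1)) := rfl
      rw [h4] at h3
      linarith
    simp only [h2] at h1
    rw [← Finset.sum_mul] at h1
    have ha' : (0 : ℝ) < a := by exact_mod_cast ha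
    have h5 : (a : ℝ) * Real.log p ≠ 0 := (mul_pos ha' hlogp).ne'
    have h6 : (∑ x : X, (n (J x) : ℝ)) * (a * Real.log p) = 2 * r * (a * Real.log p) := by
      linarith
    exact mul_right_cancel₀ h5 h6
  -- the slopes
  have hS : ∀ g : L ≃ₐ[ℚ] L, ∑ x : X, (n (J x) : ℝ) *
      slope p (fun _ : I => (p : ℚ) ^ a) π e (g • x) = 0 := by
    intro g
    have h1 := congrArg (fun z => Real.log ‖e (g z)‖) hrelL
    simp only [map_prod, map_zpow₀, map_pow, map_natCast, norm_prod, norm_zpow, norm_pow] at h1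
    rw [Real.log_prod (fun x _ => zpow_ne_zero _ (norm_ne_zero_iff.2
      ((map_ne_zero e).2 ((map_ne_zero g).2 (hval0 x)))))] at h1
    simp only [Real.log_zpow, Real.log_pow] at h1
    have h2 : ∀ x : X, slope p (fun _ : I => (p : ℚ) ^ a) π e (g • x) =
        2 * Real.log ‖e (g (x.2 (π x.1)))‖ - a * Real.log ‖(p : PadicAlgCl p)‖ := by
      intro x
      unfold Pool.Agent.H194R3.Tate.slope dev
      push_cast
      rw [norm_pow, Real.log_pow]
      rfl
    simp only [h2, mul_sub, Finset.sum_sub_distrib]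
    rw [← Finset.sum_mul, hN]
    have h3 : ∑ x : X, (n (J x) : ℝ) * (2 * Real.log ‖e (g (x.2 (π x.1)))‖) =
        2 * ∑ x : X, (n (J x) : ℝ) * Real.log ‖e (g (x.2 (π x.1)))‖ := by
      rw [Finset.mul_sum]
      exact Finset.sum_congr rfl fun x _ => by ring
    rw [h3, h1]
    ring
  -- the antisymmetric vector
  have hinj2 : ∀ x : X, inj (inj x) = x := inj_inj
  have key := hnd L hL1 hL2 j h e (fun x => n (J x) - n (J (inj x)))
    (fun x => by rw [inj_inj]; ring) (fun g => by
      have h3 : ∑ x : X, (n (J (inj x)) : ℝ) *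
          slope p (fun _ : I => (p : ℚ) ^ a) π e (g • x) =
          - ∑ x : X, (n (J x) : ℝ) * slope p (fun _ : I => (p : ℚ) ^ a) π e (g • x) := by
        rw [← Finset.sum_neg_distrib]
        refine Finset.sum_nbij' inj inj (fun _ _ => Finset.mem_univ _)
          (fun _ _ => Finset.mem_univ _) (fun y _ => inj_inj y) (fun y _ => inj_inj y) ?_
        intro y _
        have h4 : g • y = inj (g • inj y) := by
          obtain ⟨b, ψ⟩ := y
          change _ = (⟨b, cbar (g • cbar ψ)⟩ : X)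
          have h5 : g • cbar ψ = cbar (g • ψ) := rfl
          rw [h5, cbar_cbar]
          rfl
        conv_lhs => rw [h4, slope_inj p (fun _ => hq) hweil]
        ring
      have h4 : ∀ y : X, ((n (J y) - n (J (inj y)) : ℤ) : ℝ) *
          slope p (fun _ : I => (p : ℚ) ^ a) π e (g • y) =
          (n (J y) : ℝ) * slope p (fun _ : I => (p : ℚ) ^ a) π e (g • y) -
          (n (J (inj y)) : ℝ) * slope p (fun _ : I => (p : ℚ) ^ a) π e (g • y) := by
        intro y
        push_cast
        ring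
      rw [Finset.sum_congr rfl (fun y _ => h4 y), Finset.sum_sub_distrib, h3, hS g]
      simp)
  intro i φ
  obtain ⟨φ', rfl⟩ := h i φ
  have h1 := key ⟨i, φ'⟩
  have h2 : J (inj ⟨i, φ'⟩) = ⟨i, ComplexEmbedding.conjugate (j.comp φ')⟩ := by
    change (⟨i, j.comp (cbar φ')⟩ : Σ i, (K i →+* ℂ)) = _
    rw [comp_cbar]
  rw [h2] at h1
  exact sub_eq_zero.1 h1

/-- Families of Weil numbers of dominant, pair or flip type have maximal angle rank. -/
theorem angle_of_family (p : ℕ) [Fact p.Prime] (a : ℕ) (ha : 0 < a) {I : Type} [Fintype I]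
    {K : I → Type} [∀ i, Field (K i)] [∀ i, NumberField (K i)] [∀ i, IsCMField (K i)]
    (π : ∀ i, K i) (hweil : ∀ i, π i * IsCMField.complexConj (K i) (π i) = (p : K i) ^ a)
    (hπ : ∀ i, DominantType p a (π i) ∨ PairType p a (π i) ∨ FlipType p a (π i))
    (hcross : ∀ i j, i ≠ j → ∀ (φ : K i →+* ℂ) (ψ : K j →+* ℂ), CrossFlipped φ ψ) :
    MaximalAngleRank (p ^ a) π := by
  have hweil' : ∀ i, ∀ φ : K i →+* ℂ, ‖φ (π i)‖ ^ 2 = (((p : ℚ) ^ a : ℚ) : ℝ) :=
    fun i φ => norm_of_weil p a (π i) (hweil i) φ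
  exact angle_of_norel p a ha π hweil' (norel_of_family p (fun _ => a) π hweil' hπ hcross)

end Pool.Agent.Helper33Ct
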