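import Mathlib
import Pool.Agent.W484.HS.Abs

/-!
# Transport of the condition on relations to other fields
-/

set_option autoImplicit false
set_option linter.unusedSectionVars false
set_option linter.unusedVariables false

namespace Pool.Agent.Helper33Ct

open Polynomial Module Pool.Agent.W484.HS

/-- The relations for a field of characteristic zero. -/
theorem exactPair_field {I : Type} (f : I → ℤ[X]) (hmon : ∀ i, (f i).Monic) (q s : ℕ) (χ : ℚ[X])
    (hχ : χ ≠ 0)
    (h : ∀ ρ : ℂ, aeval ρ χ = 0 →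
      ExactPairK (fun z : {z : ℂ // ∃ i, aeval z (f i) = 0} => (z : ℂ) ^ s) ((q : ℂ) ^ s) ρ)
    {K : Type*} [Field K] [CharZero K] (ρ : K) (hρ : aeval ρ χ = 0) :
    ExactPairK (fun z : {z : K // ∃ i, aeval z (f i) = 0} => (z : K) ^ s)
      ((q : K) ^ s) ρ := by
  classical
  have hmem : ∀ z : K, (∃ p : ℚ[X], p ≠ 0 ∧ aeval z p = 0) → z ∈ algebraicClosure ℚ K := by
    rintro z ⟨p, hp, hz⟩
    rw [mem_algebraicClosure_iff]
    exact ⟨p, hp, hz⟩
  have halg : Algebra.IsAlgebraic ℚ (algebraicClosure ℚ K) := algebraicClosure.isAlgebraic ℚ K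
  let j : algebraicClosure ℚ K →ₐ[ℚ] ℂ := IsAlgClosed.lift
  have hρm := hmem ρ ⟨χ, hχ, hρ⟩
  have hρj : aeval (j ⟨ρ, hρm⟩) χ = 0 := by
    rw [Polynomial.aeval_algHom_apply]
    have h1 : aeval (⟨ρ, hρm⟩ : algebraicClosure ℚ K) χ = 0 := by
      apply (algebraMap (algebraicClosure ℚ K) K).injective
      rw [← Polynomial.aeval_algebraMap_apply, map_zero]
      exact hρ
    rw [h1, map_zero]
  have h0 := h _ hρj
  have hzm : ∀ z : {z : K // ∃ i, aeval z (f i) = 0}, (z : K) ∈ algebraicClosure ℚ K := by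
    rintro ⟨z, i, hi⟩
    refine hmem z ⟨(f i).map (algebraMap ℤ ℚ), ?_, ?_⟩
    · exact ((hmon i).map _).ne_zero
    · rw [aeval_map_algebraMap]
      exact hi
  have hz : ∀ z : {z : K // ∃ i, aeval z (f i) = 0},
      ∃ i, aeval (j ⟨z, hzm z⟩) (f i) = 0 := by
    rintro ⟨z, i, hi⟩
    refine ⟨i, ?_⟩
    have h2 := Polynomial.hom_eval₂ (f i) (algebraMap ℤ _)
      (j : algebraicClosure ℚ K →+* ℂ) ⟨z, hzm ⟨z, i, hi⟩⟩
    rw [RingHom.ext_int ((j : algebraicClosure ℚ K →+* ℂ).comp (algebraMap ℤ _))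
      (algebraMap ℤ ℂ)] at h2
    have h3 : eval₂ (algebraMap ℤ (algebraicClosure ℚ K)) (⟨z, hzm ⟨z, i, hi⟩⟩ :
        algebraicClosure ℚ K) (f i) = 0 := by
      apply (algebraMap (algebraicClosure ℚ K) K).injective
      rw [map_zero, Polynomial.hom_eval₂, RingHom.ext_int ((algebraMap (algebraicClosure ℚ K)
        K).comp (algebraMap ℤ _)) (algebraMap ℤ K)]
      exact hi
    rw [h3, map_zero] at h2
    exact h2.symm
  intro n c N hN hn ys hlen hrel hpw
  let φ : {z : K // ∃ i, aeval z (f i) = 0} →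
      {z : ℂ // ∃ i, aeval z (f i) = 0} := fun z => ⟨j ⟨z, hzm z⟩, hz z⟩
  have hrel0 : ((ys.map (fun z : {z : K // ∃ i, aeval z (f i) = 0} =>
      (⟨z, hzm z⟩ : algebraicClosure ℚ K) ^ s)).prod * ⟨ρ, hρm⟩) ^ N = (((q : algebraicClosure ℚ K) ^ s) ^ c) ^ N := by
    apply (algebraMap (algebraicClosure ℚ K) K).injective
    rw [map_pow, map_mul, _root_.map_list_prod, List.map_map, map_pow, map_zpow₀, map_pow,
      map_natCast]
    exact hrel
  refine h0 n c N hN hn (ys.map φ) (by rw [List.length_map, hlen]) ?_ ?_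
  · have h4 := congrArg j hrel0
    rw [map_pow, map_mul, _root_.map_list_prod j, List.map_map, map_pow, map_zpow₀, map_pow,
      map_natCast] at h4
    rw [List.map_map, ← h4]
    congr 4
    funext z
    change (j ⟨z, hzm z⟩) ^ s = j (⟨z, hzm z⟩ ^ s)
    rw [map_pow]
  · rw [List.pairwise_map]
    refine hpw.imp ?_
    intro a b hab h5
    apply hab
    change (j ⟨a, hzm a⟩) ^ s * (j ⟨b, hzm b⟩) ^ s = (q : ℂ) ^ s at h5
    have h6 : (⟨a, hzm a⟩ : algebraicClosure ℚ K) ^ s * ⟨b, hzm b⟩ ^ s =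
        (q : algebraicClosure ℚ K) ^ s := by
      apply (j : algebraicClosure ℚ K →+* ℂ).injective
      rw [map_mul, map_pow, map_pow, map_pow, map_natCast]
      exact h5
    have h7 := congrArg (algebraMap (algebraicClosure ℚ K) K) h6
    rw [map_mul, map_pow, map_pow, map_pow, map_natCast] at h7
    exact h7

end Pool.Agent.Helper33Ct
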