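import Mathlib
import Pool.Agent.Y1.CT.CodimDefs
import Pool.Agent.Helper33_ct.Kun

/-!
# The Tate conjecture in one codimension: proofs
-/

set_option autoImplicit false
set_option linter.unusedSectionVars false
set_option linter.unusedVariables false

open CategoryTheory AlgebraicGeometry

universe u v w

namespace Pool.Agent.Helper33Ct

open Pool.Agent.Y1.CT

open Module Polynomial Pool.Agent.H914 Pool.Agent.H914.VarClass Pool.Agent.H914.VarClass.Obj
  Pool.Agent.W492.BB Pool.Agent.W550.Corr Pool.Agent.W484.HS Pool.Agent.W484.CH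

section gen

variable {k : Type u} [Field k] {𝒱 : VarClass k} {C : TheoryData.{u, v, 0} 𝒱 ℚ} {K : Type w}
  [Field K] [CharZero K] {H : WeilTheoryData.{u, v, w} C K} [hC : IsChow C] [hH : IsWeil H]
  {A Z X Y : 𝒱.Obj} {I : Type} {q : ℕ} (hq : 1 < q) {f : I → ℤ[X]} {R : ℂ → Prop}
  (hR : NoRel f q R)

include hq hR in
/-- **The Kunneth formula for generalized eigenvectors of Frobenius.** -/
theorem kunneth_gen [IsAlgClosed K] (hS : IsStandard H) {s : ℕ} (hs : 0 < s) {πA : A ⟶ A}
    {πZ : Z ⟶ Z} (hA : IsAbelian H πA q s f)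
    (hZ : EigenIn R (frob H πZ)) :
    ∃ (J : Type) (_ : Fintype J) (deg : J → ℕ) (D E : J → C.A A), Nonempty J ∧
      IsDual A Z deg D E ∧
      (∀ j, D j ∈ DivProd C A (deg j)) ∧
      ∀ (i : ℤ) (m : ℕ) (w : H.A (A.prod Z)),
        op (frob H (prodMap πA πZ)) (((q ^ s : ℕ) : K) ^ i) m w = 0 →
          H.act (H.cl (proj Z D E)) w = w := by
  obtain ⟨n, b, α, hb, hα, hgood⟩ := exists_good_basis hq hR hS hs hA
  have hQ1 : 1 < q ^ s := Nat.one_lt_pow hs.ne' hq
  have hX1 : (Polynomial.X - 1 : ℚ[X]) ≠ 0 := by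
    have := Polynomial.X_sub_C_ne_zero (1 : ℚ)
    rwa [map_one] at this
  have h1 : ∀ t (c : ℤ), α t = ((q ^ s : ℕ) : K) ^ c →
      ∃ l : ℕ, α t = ((q ^ s : ℕ) : K) ^ l ∧ b t ∈ NK H A l := by
    intro t c hc
    exact hgood _ hX1 (root_one hR) 1 (by rw [map_sub, aeval_X, map_one, sub_self]) t c
      (by rw [mul_one]; exact hc)
  obtain ⟨J, hJ, deg, D, E', hdual, hD, hE, hN⟩ :=
    exists_dual2 hS hA.frobenius hQ1 b α hb h1 Z
  have hne : Nonempty J := by
    by_contra hne
    rw [not_nonempty_iff] at hne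
    have h2 := hN 0 (one_mem_NK (H := H) (A := A))
    have h3 : {c : H.A A | ∃ j, deg j = 0 ∧ c = H.cl (D j)} = ∅ := by
      ext c
      constructor
      · rintro ⟨j, -⟩
        exact hne.elim j
      · intro h
        exact h.elim
    rw [h3, Submodule.span_empty, Submodule.mem_bot] at h2
    have := hS.nontrivial A
    exact one_ne_zero h2
  refine ⟨J, hJ, deg, D, E', hne, hdual, hD, fun i m w hw => ?_⟩
  obtain ⟨χ, hχ, hχe, hrank⟩ := hZ
  have hmix : w ∈ mix H A Z := by
    refine mem_mix (πZ := πZ) hS b α hb (Q := q ^ s) (by omega) i ?_ m _ hw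
    intro t ρ v hv0 hv hc
    obtain ⟨l, -, hl⟩ := hgood χ hχ hrank ρ (hχe ρ v hv0 hv) t i hc
    exact ⟨l, hl⟩
  exact act_proj_mix hdual hN hmix

end gen

section codim

variable {k : Type u} [Field k] {𝒱 : VarClass k} {C : TheoryData.{u, v, 0} 𝒱 ℚ} {K : Type w}
  [Field K] [CharZero K] {H : WeilTheoryData.{u, v, w} C K} [hC : IsChow C] [hH : IsWeil H]
  {A Z : 𝒱.Obj} {J : Type} [Fintype J] {deg : J → ℕ} {D E : J → C.A A}
  (hS : IsStandard H) (h : IsDual A Z deg D E) {πA : A ⟶ A} {πZ : Z ⟶ Z} {Q : ℕ} (hQ : Q ≠ 0)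
  (hπA : IsFrobenius C πA Q)
  (hK : ∀ (i : ℤ) (m : ℕ) (w : H.A (A.prod Z)),
    op (frob H (prodMap πA πZ)) ((Q : K) ^ i) m w = 0 → H.act (H.cl (proj Z D E)) w = w)

include hK in
theorem hK_one (i : ℤ) (w : H.A (A.prod Z)) (hw : H.pull (prodMap πA πZ) w = (Q : K) ^ i • w) :
    H.act (H.cl (proj Z D E)) w = w := by
  refine hK i 1 w ?_
  rw [op, pow_one, LinearMap.sub_apply, LinearMap.smul_apply, Module.End.one_apply, sub_eq_zero]
  exact hw

/-- The operator `v ↦ π^* v - Q ^ c v`. -/
noncomputable def shiftOp (H : WeilTheoryData.{u, v, w} C K) {X : 𝒱.Obj} (π : X ⟶ X) (μ : K) :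
    Module.End K (H.A X) := frob H π - μ • 1

theorem iterate_eq {X : 𝒱.Obj} (π : X ⟶ X) (μ : K) (m : ℕ) (w : H.A X) :
    (fun v => H.up π v - μ • v)^[m] w = op (frob H π) μ m w := by
  have h1 : (fun v => H.up π v - μ • v) = ⇑(frob H π - μ • (1 : Module.End K (H.A X))) := by
    funext v
    rw [LinearMap.sub_apply, LinearMap.smul_apply, Module.End.one_apply]
    rfl
  rw [h1, op, Module.End.pow_apply]

include h hπA in
theorem op_ext (j : J) {c : ℕ} (hc : deg j ≤ c) (m : ℕ) (y : H.A Z) :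
    op (frob H (prodMap πA πZ)) ((Q : K) ^ c) m (H.act (H.cl (extBy C Z (D j))) y) =
      ((Q : K) ^ deg j) ^ m • H.act (H.cl (extBy C Z (D j)))
        (op (frob H πZ) ((Q : K) ^ (c - deg j)) m y) := by
  induction m with
  | zero => simp [op]
  | succ m ih =>
    have h1 : ∀ (X : 𝒱.Obj) (π : X ⟶ X) (μ : K) (v : H.A X), op (frob H π) μ (m + 1) v =
        (frob H π - μ • (1 : Module.End K (H.A X))) (op (frob H π) μ m v) := by
      intro X π μ v
      rw [op, op, pow_succ', Module.End.mul_apply]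
    rw [h1, h1, ih, map_smul]
    have h2 : (Q : K) ^ c = (Q : K) ^ deg j * (Q : K) ^ (c - deg j) := by
      rw [← pow_add]
      congr 1
      omega
    have h3 := W484.CK.frob_ext h hπA (πZ := πZ) (H := H) j
      (op (frob H πZ) ((Q : K) ^ (c - deg j)) m y)
    have h4 : (frob H (prodMap πA πZ) - (Q : K) ^ c • (1 : Module.End K (H.A (A.prod Z))))
        (H.act (H.cl (extBy C Z (D j))) (op (frob H πZ) ((Q : K) ^ (c - deg j)) m y)) =
        (Q : K) ^ deg j • H.act (H.cl (extBy C Z (D j)))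
          ((frob H πZ - (Q : K) ^ (c - deg j) • (1 : Module.End K (H.A Z)))
            (op (frob H πZ) ((Q : K) ^ (c - deg j)) m y)) := by
      rw [LinearMap.sub_apply, LinearMap.smul_apply, Module.End.one_apply, LinearMap.sub_apply,
        LinearMap.smul_apply, Module.End.one_apply]
      change H.pull (prodMap πA πZ) _ - _ = _ • H.act _ (H.pull πZ _ - _)
      rw [h3, h2, mul_smul, sub_eq_add_neg (H.pull πZ _), ← neg_smul, act_map_add,
        act_map_smul, smul_add, neg_smul, smul_neg, sub_eq_add_neg]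
    rw [h4, smul_smul, pow_succ]

include h in
/-- Classes of cycles. -/
theorem span_pair {c : ℕ} (j : J) {w : H.A (A.prod Z)}
    (hw : w ∈ Submodule.span K {a : H.A (A.prod Z) | IsCycleClass H c a}) (hc : deg j ≤ c) :
    H.act (H.cl (pairBy C Z (E j))) w ∈ Submodule.span K {a : H.A Z | IsCycleClass H (c - deg j) a} := by
  refine W484.CK.act_span_mem (P := IsCycleClass H c) _ hw fun a ha => ?_
  obtain ⟨x, hx, rfl⟩ := ha
  refine Submodule.subset_span ⟨C.act (pairBy C Z (E j)) x, ?_, ?_⟩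
  · have h1 := act_mem_chow (pairBy_mem (Z := Z) (h.right j)) hx
    rw [Nat.cast_sub hc]
    exact h1
  · exact (W484.CK.cl_act' _ _).symm

include h in
theorem span_ext {c : ℕ} (j : J) {y : H.A Z}
    (hy : y ∈ Submodule.span K {a : H.A Z | IsCycleClass H c a}) :
    H.act (H.cl (extBy C Z (D j))) y ∈
      Submodule.span K {a : H.A (A.prod Z) | IsCycleClass H (c + deg j) a} := by
  refine W484.CK.act_span_mem (P := IsCycleClass H c) _ hy fun a ha => ?_
  obtain ⟨x, hx, rfl⟩ := ha
  refine Submodule.subset_span ⟨C.act (extBy C Z (D j)) x, ?_, ?_⟩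
  · have h1 := act_mem_chow (extBy_mem (Z := Z) (h.left j)) hx
    push_cast
    exact h1
  · exact (W484.CK.cl_act' _ _).symm

include hS in
theorem cl_one_ne (X : 𝒱.Obj) : H.cl (1 : C.A X) ≠ 0 := by
  have := hS.nontrivial X
  rw [map_one]
  exact one_ne_zero

include hS h hπA hK in
/-- Every codimension up to the dimension of `A` occurs. -/
theorem exists_deg (hD : ∀ j, D j ∈ DivProd C A (deg j)) {l : ℕ} (hl : l ≤ A.dim) :
    ∃ j, deg j = l := by
  by_contra hcon
  push Not at hcon
  -- the pull-backs of classes of codimension `l` on `A` vanish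
  have hzero : ∀ (l : ℕ), (∀ j, deg j ≠ l) → ∀ y ∈ C.gr A l, H.cl (C.pull (fst A Z) y) = 0 := by
    intro l hcon y hy
    have h0 : H.pull (prodMap πA πZ) (H.cl (C.pull (fst A Z) y)) =
        (Q : K) ^ (l : ℤ) • H.cl (C.pull (fst A Z) y) := by
      have h1 : H.cl (C.pull (fst A Z) y) = H.ext (H.cl y) (1 : H.A Z) := by
        rw [TheoryData.ext, map_one, mul_one, H.cl_pull]
      have h2 : C.pull πA y = (Q : ℚ) ^ l • y := hπA.chow l y hy
      rw [h1, pull_prodMap_ext, map_one, ← H.cl_pull, h2, cl_smul, ext_smul_left, zpow_natCast,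
        ← ext_smul_right]
      push_cast
      rfl
    have h1 := eq_sum_of_act (hK_one hK _ _ h0)
    rw [h1]
    refine Finset.sum_eq_zero fun j _ => ?_
    rw [← W484.CK.cl_act', act_pairBy, ← map_mul]
    have h1 : E j * y ∈ C.gr A ((A.dim : ℤ) - deg j + l) := C.mul_mem (h.right j) hy
    rcases lt_or_gt_of_ne (hcon j) with h2 | h2
    · rw [hS.chow_top A _ (by omega), Submodule.mem_bot] at h1
      rw [h1, map_zero, map_zero, map_zero, H.act_map_zero]
    · have h3 := C.push_mem (snd A Z) (C.pull_mem (fst A Z) h1)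
      have h4 : (A.dim : ℤ) - deg j + l + 1 * ((Z.dim : ℤ) - (A.prod Z).dim) = l - deg j := by
        rw [Obj.dim_prod]
        push_cast
        ring
      rw [h4, C.gr_neg Z _ (by omega), Submodule.mem_bot] at h3
      rw [h3, map_zero, H.act_map_zero]
  obtain ⟨a, ha, -, ha2⟩ := exists_deg_one C A
  obtain ⟨j, hj⟩ : ∃ j, deg j = A.dim := by
    by_contra hcon'
    push Not at hcon'
    have h1 := hzero A.dim hcon' a ha
    have h2 := congrArg H.cl (ha2 Z)
    rw [H.cl_push, h1, map_zero] at h2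
    exact cl_one_ne hS Z h2.symm
  obtain ⟨L, hL1, hL2, hL3⟩ := hD j
  have hmem : (L.take l).prod ∈ C.gr A l := by
    have h1 : ∀ L' : List (C.A A), (∀ x ∈ L', x ∈ C.gr A 1) → L'.prod ∈ C.gr A L'.length := by
      intro L'
      induction L' with
      | nil => intro _; simpa using C.one_mem A
      | cons a L' ih =>
        intro h2
        rw [List.prod_cons, List.length_cons]
        have h3 := C.mul_mem (h2 a (by simp)) (ih fun x hx => h2 x (by simp [hx]))
        push_cast
        rwa [add_comm]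
    have h2 := h1 (L.take l) fun x hx => hL2 x (List.mem_of_mem_take hx)
    rwa [List.length_take, hL1, hj, min_eq_left hl] at h2
  have h1 := hzero l hcon _ hmem
  have h2 : H.cl (C.pull (fst A Z) (D j)) = 0 := by
    rw [hL3, ← List.take_append_drop l L, List.prod_append, map_mul, map_mul, h1, zero_mul]
  have h3 := congrArg H.cl (h.eq j)
  rw [map_mul, H.cl_push, map_mul, h2, zero_mul, map_zero] at h3
  exact cl_one_ne hS Z h3.symm

include hS h hQ hπA hK in
/-- The general principle: a property of elements of `H^(2c)`, given by operators. -/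
theorem tateIn_iff_gen (hD : ∀ j, D j ∈ DivProd C A (deg j)) (P : ℕ → Prop) (c : ℕ) :
    (∀ m, P m → ∀ w : H.A (A.prod Z), H.Deg (2 * c) w →
      op (frob H (prodMap πA πZ)) ((Q : K) ^ c) m w = 0 →
        w ∈ Submodule.span K {a : H.A (A.prod Z) | IsCycleClass H c a}) ↔
    ∀ i ≤ A.dim, i ≤ c → ∀ m, P m → ∀ y : H.A Z, H.Deg (2 * ((c - i : ℕ) : ℤ)) y →
      op (frob H πZ) ((Q : K) ^ (c - i)) m y = 0 →
        y ∈ Submodule.span K {a : H.A Z | IsCycleClass H (c - i) a} := by
  classical
  constructor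
  · intro h0 i hi hic m hm y hy hop
    obtain ⟨j, rfl⟩ := exists_deg hS h hπA hK hD hi
    have h1 : H.Deg (2 * c) (H.act (H.cl (extBy C Z (D j))) y) := by
      have h2 := W484.CK.ext_tateDeg h j hy
      rwa [Nat.cast_sub hic, sub_add_cancel] at h2
    have h2 := h0 m hm _ h1 (by rw [op_ext h hπA j hic, hop, H.act_map_zero, smul_zero])
    have h3 := span_pair h j h2 hic
    rwa [W484.CK.coh_pair_ext h, if_pos rfl] at h3
  · intro h0 m hm w hw hop
    have h1 := eq_sum_of_act (hK c m w (by rw [zpow_natCast]; exact hop))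
    have hz : ∀ j, c < deg j → H.act (H.cl (pairBy C Z (E j))) w = 0 := by
      intro j hj
      have hd := W484.CK.pair_tateDeg h j hw
      have hlt : 2 * ((c : ℤ) - deg j) < 0 := by omega
      have hd' : H.act (H.cl (pairBy C Z (E j))) w ∈ H.gr Z (2 * ((c : ℤ) - deg j)) := hd
      rw [H.gr_neg _ _ hlt] at hd'
      exact (Submodule.mem_bot _).1 hd'
    have h2 : ∀ j, deg j ≤ c → op (frob H πZ) ((Q : K) ^ (c - deg j)) m
        (H.act (H.cl (pairBy C Z (E j))) w) = 0 := by
      have h3 : ∑ j, H.act (H.cl (extBy C Z (D j))) (if deg j ≤ c then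
          ((Q : K) ^ deg j) ^ m • op (frob H πZ) ((Q : K) ^ (c - deg j)) m
            (H.act (H.cl (pairBy C Z (E j))) w) else 0) =
          ∑ j, H.act (H.cl (extBy C Z (D j))) 0 := by
        have h4 : ∀ j, H.act (H.cl (extBy C Z (D j))) (if deg j ≤ c then
          ((Q : K) ^ deg j) ^ m • op (frob H πZ) ((Q : K) ^ (c - deg j)) m
            (H.act (H.cl (pairBy C Z (E j))) w) else 0) =
            op (frob H (prodMap πA πZ)) ((Q : K) ^ c) m (H.act (H.cl (extBy C Z (D j)))
              (H.act (H.cl (pairBy C Z (E j))) w)) := by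
          intro j
          by_cases hj : deg j ≤ c
          · rw [if_pos hj, op_ext h hπA j hj, act_map_smul]
          · rw [if_neg hj, hz j (not_le.1 hj)]
            simp only [H.act_map_zero, map_zero]
        rw [Finset.sum_congr rfl fun j _ => h4 j, ← map_sum, ← h1, hop]
        exact (Finset.sum_eq_zero fun j _ => H.act_map_zero _).symm
      intro j hj
      have h5 := congrFun (W484.CK.coh_ext_inj h h3) j
      simp only [if_pos hj] at h5
      have hQK : (Q : K) ≠ 0 := by exact_mod_cast hQ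
      exact (smul_eq_zero.1 h5).resolve_left (pow_ne_zero _ (pow_ne_zero _ hQK))
    rw [h1]
    refine Submodule.sum_mem _ fun j _ => ?_
    by_cases hj : deg j ≤ c
    · have h6 := W484.CK.pair_tateDeg h j hw
      have h7 := h0 (deg j) (h.le j) hj m hm _ (by rwa [Nat.cast_sub hj]) (h2 j hj)
      have h8 := span_ext h j h7
      rwa [Nat.sub_add_cancel hj] at h8
    · rw [hz j (not_le.1 hj), H.act_map_zero]
      exact Submodule.zero_mem _

include hS h hQ hπA hK in
theorem tateIn_prod_iff (hD : ∀ j, D j ∈ DivProd C A (deg j)) (c : ℕ) :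
    TateIn H (prodMap πA πZ) Q c ↔ ∀ i ≤ A.dim, i ≤ c → TateIn H πZ Q (c - i) := by
  have h1 := tateIn_iff_gen hS h hQ hπA hK hD (fun m => m = 1) c
  have h2 : ∀ (X : 𝒱.Obj) (π : X ⟶ X) (c : ℕ), TateIn H π Q c ↔ ∀ m, m = 1 → ∀ w : H.A X,
      H.Deg (2 * c) w → op (frob H π) ((Q : K) ^ c) m w = 0 →
        w ∈ Submodule.span K {a : H.A X | IsCycleClass H c a} := by
    intro X π c
    constructor
    · rintro h3 m rfl w hw hop
      refine h3 w hw ?_
      rw [op, pow_one, LinearMap.sub_apply, LinearMap.smul_apply, Module.End.one_apply,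
        sub_eq_zero] at hop
      exact hop
    · intro h3 w hw hop
      refine h3 1 rfl w hw ?_
      rw [op, pow_one, LinearMap.sub_apply, LinearMap.smul_apply, Module.End.one_apply,
        sub_eq_zero]
      exact hop
  rw [h2, h1]
  exact forall_congr' fun i => forall_congr' fun _ => forall_congr' fun _ => (h2 _ _ _).symm

include hS h hQ hπA hK in
theorem strongTateIn_prod_iff (hD : ∀ j, D j ∈ DivProd C A (deg j)) (c : ℕ) :
    StrongTateIn H (prodMap πA πZ) Q c ↔ ∀ i ≤ A.dim, i ≤ c → StrongTateIn H πZ Q (c - i) := by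
  have h1 := tateIn_iff_gen hS h hQ hπA hK hD (fun m => True) c
  have h2 : ∀ (X : 𝒱.Obj) (π : X ⟶ X) (c : ℕ), StrongTateIn H π Q c ↔ ∀ m, True → ∀ w : H.A X,
      H.Deg (2 * c) w → op (frob H π) ((Q : K) ^ c) m w = 0 →
        w ∈ Submodule.span K {a : H.A X | IsCycleClass H c a} := by
    intro X π c
    constructor
    · intro h3 m _ w hw hop
      refine h3 m w hw ?_
      rw [iterate_eq]
      exact hop
    · intro h3 m w hw hop
      refine h3 m trivial w hw ?_
      rw [iterate_eq] at hop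
      exact hop
  rw [h2, h1]
  exact forall_congr' fun i => forall_congr' fun _ => forall_congr' fun _ => (h2 _ _ _).symm

end codim

end Pool.Agent.Helper33Ct
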