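import Mathlib
import Pool.Agent.Helper33_ct.Codim
import Pool.Agent.Helper33_ct.Unrel

/-!
# Homological and numerical equivalence in one codimension: proofs
-/

set_option autoImplicit false
set_option linter.unusedSectionVars false
set_option linter.unusedVariables false

open CategoryTheory AlgebraicGeometry

universe u v w

namespace Pool.Agent.Helper33Ct

open Pool.Agent.Y1.CT

open Module Polynomial Pool.Agent.H914 Pool.Agent.H914.VarClass Pool.Agent.H914.VarClass.Obj
  Pool.Agent.W492.BB Pool.Agent.W550.Corr Pool.Agent.W484.HS Pool.Agent.W484.CH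

section codim

variable {k : Type u} [Field k] {𝒱 : VarClass k} {C : TheoryData.{u, v, 0} 𝒱 ℚ} {K : Type w}
  [Field K] [CharZero K] {H : WeilTheoryData.{u, v, w} C K} [hC : IsChow C] [hH : IsWeil H]
  {A Z : 𝒱.Obj} {J : Type} [Fintype J] {deg : J → ℕ} {D E : J → C.A A}
  (hS : IsStandard H) (h : IsDual A Z deg D E) {πA : A ⟶ A} {πZ : Z ⟶ Z} {Q : ℕ} (hQ : Q ≠ 0)
  (hπA : IsFrobenius C πA Q) (hF : IsFrobenius C (prodMap πA πZ) Q)
  (hK : ∀ (i : ℤ) (m : ℕ) (w : H.A (A.prod Z)),
    op (frob H (prodMap πA πZ)) ((Q : K) ^ i) m w = 0 → H.act (H.cl (proj Z D E)) w = w)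

include h in
/-- The external product with `D j` preserves numerical triviality. -/
theorem numTrivial_ext {c : ℕ} (j : J) {x : C.A Z} (hx : C.Deg (c : ℤ) x)
    (hnum : ∀ (d : ℕ) (y : C.A Z), c + d = Z.dim → C.Deg d y → H.tr Z (H.cl (C.mul x y)) = 0)
    (d : ℕ) (y : C.A (A.prod Z)) (hd : c + deg j + d = (A.prod Z).dim) (hy : C.Deg d y) :
    H.tr (A.prod Z) (H.cl (C.mul (C.ext (D j) x) y)) = 0 := by
  change H.tr (A.prod Z) (H.cl (C.pull (fst A Z) (D j) * C.pull (snd A Z) x * y)) = 0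
  have h1 : C.pull (fst A Z) (D j) * C.pull (snd A Z) x * y =
      C.pull (snd A Z) x * (C.pull (fst A Z) (D j) * y) := by
    rw [chow_mul_comm (C.pull (fst A Z) (D j)), mul_assoc]
  rw [h1, ← H.tr_push (snd A Z), ← H.cl_push, C.proj_left]
  have h2 := C.push_mem (snd A Z) (C.mul_mem (C.pull_mem (fst A Z) (h.left j)) hy)
  have h3 : (deg j : ℤ) + d + 1 * ((Z.dim : ℤ) - (A.prod Z).dim) = deg j + d - A.dim := by
    rw [Obj.dim_prod]
    push_cast
    ring
  rw [h3] at h2
  rcases lt_or_ge ((deg j : ℤ) + d - A.dim) 0 with hi | hi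
  · rw [C.gr_neg Z _ hi, Submodule.mem_bot] at h2
    rw [h2, mul_zero, map_zero, map_zero]
  · obtain ⟨n, hn⟩ := Int.eq_ofNat_of_zero_le hi
    rw [hn] at h2
    refine hnum n _ ?_ h2
    rw [Obj.dim_prod] at hd
    omega

include h in
/-- The push-forward of the product with `E j` preserves numerical triviality. -/
theorem numTrivial_pair {c : ℕ} (j : J) (hj : deg j ≤ c) {x : C.A (A.prod Z)}
    (hnum : ∀ (d : ℕ) (y : C.A (A.prod Z)), c + d = (A.prod Z).dim → C.Deg d y →
      H.tr (A.prod Z) (H.cl (C.mul x y)) = 0)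
    (d : ℕ) (y : C.A Z) (hd : c - deg j + d = Z.dim) (hy : C.Deg d y) :
    H.tr Z (H.cl (C.mul (C.push (snd A Z) (C.pull (fst A Z) (E j) * x)) y)) = 0 := by
  change H.tr Z (H.cl (C.push (snd A Z) (C.pull (fst A Z) (E j) * x) * y)) = 0
  rw [← C.proj_right, H.cl_push, H.tr_push]
  have h3 : C.Deg ((A.dim : ℤ) - deg j + d) (C.pull (fst A Z) (E j) * C.pull (snd A Z) y) :=
    C.mul_mem (C.pull_mem _ (h.right j)) (C.pull_mem _ hy)
  have h4 : C.pull (fst A Z) (E j) * x * C.pull (snd A Z) y =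
      x * (C.pull (fst A Z) (E j) * C.pull (snd A Z) y) := by
    rw [chow_mul_comm (C.pull (fst A Z) (E j)) x, mul_assoc]
  rw [h4]
  have h5 := h.le j
  have h6 : (A.dim : ℤ) - deg j + d = ((A.dim - deg j + d : ℕ) : ℤ) := by
    omega
  rw [h6] at h3
  refine hnum _ _ ?_ h3
  rw [Obj.dim_prod]
  omega

include hS h hQ hπA hF hK in
theorem homNumIn_prod_iff (hD : ∀ j, D j ∈ DivProd C A (deg j)) (c : ℕ) :
    HomNumIn H (A.prod Z) c ↔ ∀ i ≤ A.dim, i ≤ c → HomNumIn H Z (c - i) := by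
  classical
  constructor
  · intro h0 i hi hic x hx hnum
    obtain ⟨j, rfl⟩ := exists_deg hS h hπA hK hD hi
    have h1 : C.Deg (c : ℤ) (C.ext (D j) x) := by
      have h2 := C.mul_mem (C.pull_mem (fst A Z) (h.left j)) (C.pull_mem (snd A Z) hx)
      rwa [Nat.cast_sub hic, add_sub_cancel] at h2
    have h2 := h0 _ h1 fun d y hd hy => numTrivial_ext h j hx hnum d y (by omega) hy
    have h3 := W484.CK.coh_pair_ext (H := H) h j j (H.cl x)
    rw [if_pos rfl] at h3
    rw [← h3, ← W484.CK.cl_act', act_extBy, h2, H.act_map_zero]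
  · intro h0 x hx hnum
    have h1 : H.pull (prodMap πA πZ) (H.cl x) = (Q : K) ^ (c : ℤ) • H.cl x := by
      have h2 : C.pull (prodMap πA πZ) x = (Q : ℚ) ^ c • x := hF.chow c x hx
      rw [← H.cl_pull, h2, cl_smul, zpow_natCast]
      push_cast
      rfl
    rw [eq_sum_of_act (hK_one hK _ _ h1)]
    refine Finset.sum_eq_zero fun j _ => ?_
    rw [← W484.CK.cl_act', act_pairBy]
    have h3 := push_snd_mem (h.right j) hx
    have h4 : H.cl (C.push (snd A Z) (C.pull (fst A Z) (E j) * x)) = 0 := by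
      rcases lt_or_ge c (deg j) with hj | hj
      · rw [TheoryData.Deg, C.gr_neg Z _ (by omega), Submodule.mem_bot] at h3
        rw [h3, map_zero]
      · rw [← Nat.cast_sub hj] at h3
        exact h0 (deg j) (h.le j) hj _ h3 fun d y hd hy => numTrivial_pair h j hj hnum d y hd hy
    rw [h4, H.act_map_zero]

end codim

section

variable {I : Type} {K : I → Type} [∀ i, Field (K i)] {q : ℕ} (hq : 1 < q) {f : I → ℤ[X]}
  (hR : NoRel f q (Unrelated K))

include hq hR

theorem tateTimes : TateTimes K q f := by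
  intro k _ 𝒱 C _ F _ _ _ H _ s A Z πA πZ hsit c
  obtain ⟨J, hJ, deg, D, E', hne, hdual, hD, hK⟩ := kunneth_gen hq hR
    (W484.CK.isStandard_bridge hsit.standard) hsit.pos (W484.CK.isAbelian_bridge hsit.abelian)
    (πZ := πZ) hsit.unrelated
  have hQ : q ^ s ≠ 0 := pow_ne_zero _ (by omega)
  have hπA := W484.CK.isFrobenius_bridge hsit.abelian.frobenius
  have hS := W484.CK.isStandard_bridge hsit.standard
  exact ⟨tateIn_prod_iff hS hdual hQ hπA hK hD c, strongTateIn_prod_iff hS hdual hQ hπA hK hD c⟩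

theorem homNumTimes : HomNumTimes K q f := by
  intro k _ 𝒱 C _ F _ _ _ H _ s A Z πA πZ hsit hF c
  obtain ⟨J, hJ, deg, D, E', hne, hdual, hD, hK⟩ := kunneth_gen hq hR
    (W484.CK.isStandard_bridge hsit.standard) hsit.pos (W484.CK.isAbelian_bridge hsit.abelian)
    (πZ := πZ) hsit.unrelated
  have hQ : q ^ s ≠ 0 := pow_ne_zero _ (by omega)
  have hπA := W484.CK.isFrobenius_bridge hsit.abelian.frobenius
  exact homNumIn_prod_iff (W484.CK.isStandard_bridge hsit.standard) hdual hQ hπA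
    (W484.CK.isFrobenius_bridge hF) hK hD c

end

end Pool.Agent.Helper33Ct
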