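import Mathlib
import Pool.Agent.Helper33_ct.Angle
import Pool.Agent.Helper33_ct.Unrel

/-!
# Families of Weil numbers with dominating slopes and unrelated numbers
-/

set_option autoImplicit false
set_option linter.unusedSectionVars false

namespace Pool.Agent.Helper33Ct

open NumberField Module Polynomial Pool.Agent.Y1.CT Pool.Agent.W484.HS Pool.Agent.H194R3.Tate
  Pool.Agent.Helper33Dom

/-- The number `1` is independent of all fields. -/
theorem independent_one {I : Type} (K : I → Type) [∀ i, Field (K i)] : Independent K 1 :=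
  ⟨one_ne_zero, fun _ _ => ⟨(starRingAut : ℂ ≃+* ℂ), 1, one_pos, by simp, fun _ => rfl⟩⟩

section

variable {p : ℕ} [Fact p.Prime] {a : ℕ} (ha : 0 < a) {I : Type} [Fintype I]
  {K : I → Type} [∀ i, Field (K i)] [∀ i, NumberField (K i)] [∀ i, IsCMField (K i)]
  (π : ∀ i, K i) (hweil : ∀ i, π i * IsCMField.complexConj (K i) (π i) = (p : K i) ^ a)
  (hπ : ∀ i, DominantType p a (π i) ∨ PairType p a (π i) ∨ FlipType p a (π i))
  (hcross : ∀ i j, i ≠ j → ∀ (φ : K i →+* ℂ) (ψ : K j →+* ℂ), CrossFlipped φ ψ)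
  (f : I → ℤ[X]) (hf : ∀ i, IsPolyOf (π i) (f i))

include ha hweil hπ hcross hf

theorem noRel_unrelated : Pool.Agent.Helper33Ct.NoRel f (p ^ a) (Unrelated K) :=
  ⟨fun i => (hf i).1, unrelated_one K, fun s hs ρ hρ =>
    exactPair_of_angle (angle_of_family p a ha π hweil hπ hcross) hweil f hf s hs ρ hρ⟩

theorem noRel_independent : Pool.Agent.Helper33Ct.NoRel f (p ^ a) (Independent K) :=
  ⟨fun i => (hf i).1, independent_one K, fun s hs ρ hρ =>
    exactPair_of_angle (angle_of_family p a ha π hweil hπ hcross) hweil f hf s hs ρ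
      (unrelated_of_independent hρ)⟩

end

end Pool.Agent.Helper33Ct
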